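import Mathlib
import Pool.Agent.R581.TwoTop

/-!
There is a semigroup with exactly two Polish semigroup topologies. Hence the dichotomy of Q1 of
MP_67072b_lc fails.
-/

open Pool.Agent.R581 Cardinal

theorem Pool.Agent.Results.MP_67072b_lc.ExactlyTwo.result :
    (∃ (S : Type) (_ : Semigroup S),
      Cardinal.mk {t : TopologicalSpace S // @PolishSpace S t ∧ @ContinuousMul S t _} = 2) ∧
    ¬ ∀ κ : Cardinal.{0}, ((∃ (S : Type) (_ : Semigroup S),
      Cardinal.mk {t : TopologicalSpace S // @PolishSpace S t ∧ @ContinuousMul S t _} = κ) ↔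
        κ ∈ ({0, 1, ℵ₀, 2 ^ ℵ₀, 2 ^ ((2 : Cardinal.{0}) ^ ℵ₀)} : Set Cardinal.{0})) := by
  have h2 : ∃ (S : Type) (_ : Semigroup S),
      Cardinal.mk {t : TopologicalSpace S // @PolishSpace S t ∧ @ContinuousMul S t _} = 2 :=
    ⟨Sg, inferInstance, Sg.card_two⟩
  refine ⟨h2, fun h => ?_⟩
  have h3 := (h 2).1 h2
  have hlt : (2 : Cardinal.{0}) < ℵ₀ := Cardinal.ofNat_lt_aleph0
  have hlt2 : (2 : Cardinal.{0}) < 2 ^ ℵ₀ := hlt.trans (Cardinal.cantor _)
  have hlt3 : (2 : Cardinal.{0}) < 2 ^ ((2 : Cardinal.{0}) ^ ℵ₀) :=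
    hlt2.trans (Cardinal.cantor _)
  simp only [Set.mem_insert_iff, Set.mem_singleton_iff] at h3
  rcases h3 with h3 | h3 | h3 | h3 | h3
  · exact two_ne_zero h3
  · exact (OfNat.ofNat_ne_one 2) h3
  · exact hlt.ne h3
  · exact hlt2.ne h3
  · exact hlt3.ne h3
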